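import Pool.Agent.X115.HS.Stm

set_option autoImplicit false

namespace Pool.Agent.X172.HS.BD

open MeasureTheory Set Filter Topology Real
open Pool.Agent.X115.HS

theorem hk_eq {n : ℕ} {s : ℝ} (hs : 0 < s) (x : X n) : hk (s : ℂ) x = (gk s x : ℂ) := by
  unfold hk gk
  have h1 : (0 : ℝ) ≤ 4 * π * s := by positivity
  rw [Complex.ofReal_mul, Complex.ofReal_cpow h1, Complex.ofReal_exp]
  push_cast
  rfl

theorem gk_pos {n : ℕ} {s : ℝ} (hs : 0 < s) (x : X n) : 0 < gk s x := by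
  unfold gk
  positivity

theorem gk_int {n : ℕ} {s : ℝ} (hs : 0 < s) : ∫ x : X n, gk s x = 1 := by
  unfold gk
  rw [integral_const_mul]
  have hb : 0 < 1 / (4 * s) := by positivity
  have h := GaussianFourier.integral_rexp_neg_mul_sq_norm (V := X n) hb
  have e : (fun x : X n => Real.exp (-‖x‖ ^ 2 / (4 * s))) =
      fun x : X n => Real.exp (-(1 / (4 * s)) * ‖x‖ ^ 2) := by
    funext x
    congr 1
    field_simp
  rw [e, h, finrank_euclideanSpace_fin]
  have e2 : π / (1 / (4 * s)) = 4 * π * s := by field_simp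
  rw [e2, ← Real.rpow_add (by positivity), neg_add_cancel, Real.rpow_zero]

theorem gk_integrable {n : ℕ} {s : ℝ} (hs : 0 < s) : Integrable (fun x : X n => gk s x) := by
  by_contra h
  have := integral_undef h
  rw [gk_int hs] at this
  exact one_ne_zero this

theorem re_pos {s : ℝ} (hs : 0 < s) {z : ℂ} (hz : ‖z - s‖ ≤ s / 2) : s / 2 ≤ z.re := by
  have h1 := Complex.abs_re_le_norm (z - s)
  have h2 : (z - (s : ℂ)).re = z.re - s := by simp
  rw [h2] at h1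
  have h3 := abs_le.1 (h1.trans hz)
  linarith [h3.1]

theorem norm_le {s : ℝ} (hs : 0 < s) {z : ℂ} (hz : ‖z - s‖ ≤ s / 2) : ‖z‖ ≤ 3 * s / 2 := by
  have h1 : ‖z‖ ≤ ‖z - s‖ + ‖(s : ℂ)‖ := by
    have := norm_add_le (z - s) (s : ℂ)
    rwa [sub_add_cancel] at this
  rw [Complex.norm_real, Real.norm_eq_abs, abs_of_pos hs] at h1
  linarith

theorem le_norm {s : ℝ} (hs : 0 < s) {z : ℂ} (hz : ‖z - s‖ ≤ s / 2) : s / 2 ≤ ‖z‖ :=
  (re_pos hs hz).trans ((le_abs_self _).trans (Complex.abs_re_le_norm z))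

theorem hk_norm {n : ℕ} {z : ℂ} (hz : 0 < z.re) (x : X n) :
    ‖hk z x‖ = (4 * π * ‖z‖) ^ (-((n : ℝ) / 2)) * Real.exp (-(‖x‖ ^ 2 * z.re / (4 * ‖z‖ ^ 2))) := by
  have hz0 : z ≠ 0 := by
    rintro rfl
    simp at hz
  have h4 : (4 * (π : ℂ) * z) ≠ 0 := by
    have : (π : ℂ) ≠ 0 := by exact_mod_cast Real.pi_ne_zero
    simp [this, hz0]
  unfold hk
  rw [norm_mul, Complex.norm_exp]
  congr 1
  · have e : (-((n : ℂ) / 2)) = ((-((n : ℝ) / 2) : ℝ) : ℂ) := by push_cast; rfl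
    rw [e, Complex.norm_cpow_real]
    congr 1
    rw [norm_mul, norm_mul, Complex.norm_real, Real.norm_eq_abs, abs_of_pos Real.pi_pos]
    norm_num
  · congr 1
    have hn : Complex.normSq z ≠ 0 := by
      rwa [Ne, Complex.normSq_eq_zero]
    rw [Complex.div_re, Complex.normSq_mul, Complex.sq_norm]
    have e1 : (-((‖x‖ ^ 2 : ℝ) : ℂ)).re = -(‖x‖ ^ 2) := by
      rw [Complex.neg_re, Complex.ofReal_re]
    have e2 : (-((‖x‖ ^ 2 : ℝ) : ℂ)).im = 0 := by
      rw [Complex.neg_im, Complex.ofReal_im, neg_zero]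
    have e3 : (4 * z).re = 4 * z.re := by simp
    have e4 : Complex.normSq 4 = 16 := by
      rw [show (4 : ℂ) = ((4 : ℝ) : ℂ) by norm_num, Complex.normSq_ofReal]; norm_num
    rw [e1, e2, e3, e4]
    field_simp
    ring

theorem t : S_BD := by
  intro n s hs
  refine ⟨hk_eq hs, gk_pos hs, gk_integrable hs, gk_int hs, fun z hz => ?_⟩
  have h1 := re_pos hs hz
  have h2 := norm_le hs hz
  have h3 := le_norm hs hz
  have hre : 0 < z.re := by linarith
  have hzn : 0 < ‖z‖ := by linarith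
  refine ⟨hre, fun x => ?_⟩
  rw [hk_norm hre]
  unfold gk
  have e1 : (4 * π * ‖z‖) ^ (-((n : ℝ) / 2)) ≤ 3 ^ n * (4 * π * (9 / 2 * s)) ^ (-((n : ℝ) / 2)) := by
    have a1 : (4 * π * ‖z‖) ^ (-((n : ℝ) / 2)) ≤ (4 * π * (s / 2)) ^ (-((n : ℝ) / 2)) := by
      apply Real.rpow_le_rpow_of_nonpos (by positivity)
      · gcongr
      · have : (0 : ℝ) ≤ n := Nat.cast_nonneg n
        linarith
    have a2 : (4 * π * (s / 2)) ^ (-((n : ℝ) / 2)) =
        3 ^ n * (4 * π * (9 / 2 * s)) ^ (-((n : ℝ) / 2)) := by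
      have b1 : 4 * π * (s / 2) = (4 * π * (9 / 2 * s)) * (1 / 9) := by ring
      rw [b1, Real.mul_rpow (by positivity) (by norm_num), mul_comm]
      congr 1
      have b2 : (1 / 9 : ℝ) = 3 ^ (-2 : ℝ) := by
        rw [Real.rpow_neg (by norm_num)]; norm_num
      rw [b2, ← Real.rpow_mul (by norm_num), ← Real.rpow_natCast]
      congr 1
      ring
    rw [← a2]
    exact a1
  have e2 : Real.exp (-(‖x‖ ^ 2 * z.re / (4 * ‖z‖ ^ 2))) ≤
      Real.exp (-‖x‖ ^ 2 / (4 * (9 / 2 * s))) := by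
    apply Real.exp_le_exp.2
    have c1 : 1 / (4 * (9 / 2 * s)) ≤ z.re / (4 * ‖z‖ ^ 2) := by
      rw [div_le_div_iff₀ (by positivity) (by positivity)]
      nlinarith [mul_pos hs hs]
    have c2 : 0 ≤ ‖x‖ ^ 2 := by positivity
    have c3 := mul_le_mul_of_nonneg_left c1 c2
    have c4 : -‖x‖ ^ 2 / (4 * (9 / 2 * s)) = -(‖x‖ ^ 2 * (1 / (4 * (9 / 2 * s)))) := by ring
    rw [c4, mul_div_assoc]
    exact neg_le_neg c3
  calc _ ≤ (3 ^ n * (4 * π * (9 / 2 * s)) ^ (-((n : ℝ) / 2))) *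
        Real.exp (-‖x‖ ^ 2 / (4 * (9 / 2 * s))) := by
        apply mul_le_mul e1 e2 (by positivity) (by positivity)
    _ = _ := by ring

end Pool.Agent.X172.HS.BD
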